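import Pool.Agent.H78.XQ.Targets

/-!
# The states of an algorithm with parallel queries are unit vectors
-/

set_option autoImplicit false

namespace Pool.Agent.H71.XQ

open Pool.Agent.H6.NB Pool.Agent.H70.OQ Pool.Agent.H70.EH Pool.Agent.H70.EI
open Pool.Agent.H78.XQ
open scoped Matrix

/-- A unitary matrix preserves the sum of the squares of the absolute values. -/
theorem nrm_unitary {B : Type} [Fintype B] [DecidableEq B] (M : Matrix B B ℂ)
    (hM : M ∈ Matrix.unitaryGroup B ℂ) (v : B → ℂ) :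
    ∑ i, ‖(M *ᵥ v) i‖ ^ 2 = ∑ i, ‖v i‖ ^ 2 := by
  have h1 : ∀ w : B → ℂ, ((∑ i, ‖w i‖ ^ 2 : ℝ) : ℂ) = star w ⬝ᵥ w := by
    intro w
    rw [dotProduct, Complex.ofReal_sum]
    refine Finset.sum_congr rfl fun i _ => ?_
    rw [Pi.star_apply, Complex.star_def, mul_comm, Complex.mul_conj, Complex.normSq_eq_norm_sq]
  have h2 : ((∑ i, ‖(M *ᵥ v) i‖ ^ 2 : ℝ) : ℂ) = ((∑ i, ‖v i‖ ^ 2 : ℝ) : ℂ) := by
    rw [h1, h1, Matrix.star_mulVec, Matrix.dotProduct_mulVec, Matrix.vecMul_vecMul]
    have h3 := Matrix.mem_unitaryGroup_iff'.1 hM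
    rw [Matrix.star_eq_conjTranspose] at h3
    rw [h3, Matrix.vecMul_one]
  exact_mod_cast h2

/-- A phase has absolute value one. -/
theorem nrm_phase (A : XAlg) (O : List Bool → Bool) (i : A.basis) : ‖A.phase O i‖ = 1 := by
  unfold XAlg.phase
  induction A.query i with
  | nil => simp
  | cons w l ih =>
    rw [List.map_cons, List.prod_cons, norm_mul, ih, mul_one]
    by_cases h : O w = true
    · rw [if_pos h, norm_neg, norm_one]
    · rw [if_neg h, norm_one]

/-- NRM: the states are unit vectors. -/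
theorem nrm : T_NRM := by
  intro A O t
  induction t with
  | zero =>
    rw [XAlg.state]
    rw [nrm_unitary _ (A.unitary 0)]
    exact A.norm_init
  | succ t ih =>
    rw [XAlg.state]
    rw [nrm_unitary _ (A.unitary (t + 1))]
    rw [← ih]
    refine Finset.sum_congr rfl fun i _ => ?_
    rw [norm_mul, nrm_phase, one_mul]

end Pool.Agent.H71.XQ
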